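import Pool.Agent.TDV.StmtsD

/-!
Module CGS of squad TDV: the guess of the index of the copy.
-/

set_option autoImplicit false

noncomputable section

namespace Pool.Agent.TDV.H90

open Pool.Agent.TDV Pool.Agent.Helper25TD

/-- the least index with the least score is eventually constant -/
lemma cgs_conv (s : ℕ → ℕ → ℕ) (hmono : ∀ i N M, N ≤ M → s i N ≤ s i M) (hge : ∀ i N, i ≤ s i N)
    (hb : ∃ i v, ∀ N, s i N ≤ v) :
    ∃ i, (∃ v, ∀ N, s i N ≤ v) ∧ ∃ m, ∀ N ≥ m, sInf {a | ∀ j, s a N ≤ s j N} = i := by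
  classical
  have hV : ∃ v i, ∀ N, s i N ≤ v := by
    obtain ⟨i, v, h⟩ := hb
    exact ⟨v, i, h⟩
  set v := Nat.find hV with hv
  have hvs : ∃ i, ∀ N, s i N ≤ v := Nat.find_spec hV
  have hvm : ∀ w < v, ¬ ∃ i, ∀ N, s i N ≤ w := fun w hw => Nat.find_min hV hw
  set k := Nat.find hvs with hk
  have hks : ∀ N, s k N ≤ v := Nat.find_spec hvs
  have hkm : ∀ i < k, ¬ ∀ N, s i N ≤ v := fun i hi => Nat.find_min hvs hi
  have h1 : ∀ i, ∃ N, v ≤ s i N ∧ (i < k → v < s i N) := by
    intro i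
    by_cases hi : i < k
    · have := hkm i hi
      push Not at this
      obtain ⟨N, hN⟩ := this
      exact ⟨N, hN.le, fun _ => hN⟩
    · by_cases h0 : v = 0
      · exact ⟨0, by omega, fun h => absurd h hi⟩
      · have := hvm (v - 1) (by omega)
        push Not at this
        obtain ⟨N, hN⟩ := this i
        exact ⟨N, by omega, fun h => absurd h hi⟩
  choose T hT1 hT2 using h1
  refine ⟨k, ⟨v, hks⟩, (Finset.range (v + k + 1)).sup T, fun N hN => ?_⟩
  have hTN : ∀ i < v + k + 1, T i ≤ N := fun i hi =>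
    le_trans (Finset.le_sup (f := T) (Finset.mem_range.2 hi)) hN
  have hA : ∀ i, v ≤ s i N := by
    intro i
    by_cases hi : i < v + k + 1
    · exact le_trans (hT1 i) (hmono i _ _ (hTN i hi))
    · have := hge i N
      omega
  have hB : ∀ i < k, v < s i N := by
    intro i hi
    exact lt_of_lt_of_le (hT2 i hi) (hmono i _ _ (hTN i (by omega)))
  have hkmem : k ∈ {a | ∀ j, s a N ≤ s j N} := fun j => le_trans (hks N) (hA j)
  apply le_antisymm
  · exact Nat.sInf_le hkmem
  · by_contra hlt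
    push Not at hlt
    have hmem := Nat.sInf_mem (s := {a | ∀ j, s a N ≤ s j N}) ⟨k, hkmem⟩
    have h2 := hB _ hlt
    have h3 := hmem k
    have h4 := hks N
    omega

/-- the number of errors of the copy number `i` in `l` -/
def cgsErr (g : ℕ → Equiv.Perm ℕ) (p : ℕ → ℕ) (c : ℕ → Bool) (r i : ℕ) (l : List Bool) : ℕ := by
  classical
  exact ((Finset.range l.length).filter fun n => n % 2 = r ∧ n ∉ Set.range p ∧ g i n < l.length ∧
    l.getD (g i n) false ≠ c n).card

lemma cgsErr_pre (g : ℕ → Equiv.Perm ℕ) (p : ℕ → ℕ) (c : ℕ → Bool) (r i : ℕ) (x : ℕ → Bool)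
    (N : ℕ) : cgsErr g p c r i (pre x N) = {n | n < N ∧ n % 2 = r ∧ n ∉ Set.range p ∧ g i n < N ∧
      x (g i n) ≠ c n}.ncard := by
  classical
  have hlen : (pre x N).length = N := by simp [pre]
  have hset : {n | n < N ∧ n % 2 = r ∧ n ∉ Set.range p ∧ g i n < N ∧ x (g i n) ≠ c n} =
      (((Finset.range N).filter fun n => n % 2 = r ∧ n ∉ Set.range p ∧ g i n < N ∧
        (pre x N).getD (g i n) false ≠ c n : Finset ℕ) : Set ℕ) := by
    ext n
    rw [Finset.mem_coe, Finset.mem_filter, Finset.mem_range]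
    constructor
    · rintro ⟨h1, h2, h3, h4, h5⟩
      refine ⟨h1, h2, h3, h4, ?_⟩
      have : (pre x N).getD (g i n) false = x (g i n) := by
        rw [List.getD_eq_getElem _ _ (by rw [hlen]; exact h4)]
        simp [pre]
      rw [this]
      exact h5
    · rintro ⟨h1, h2, h3, h4, h5⟩
      refine ⟨h1, h2, h3, h4, ?_⟩
      have : (pre x N).getD (g i n) false = x (g i n) := by
        rw [List.getD_eq_getElem _ _ (by rw [hlen]; exact h4)]
        simp [pre]
      rw [this] at h5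
      exact h5
  rw [hset, Set.ncard_coe_finset]
  unfold cgsErr
  rw [hlen]

/-- CGS -/
theorem cgs : CgsStmt := by
  classical
  intro g p c r
  refine ⟨fun l => sInf {a | ∀ j, a + cgsErr g p c r a l ≤ j + cgsErr g p c r j l}, ?_⟩
  intro x hx
  have hfin : ∀ i N, {n | n < N ∧ n % 2 = r ∧ n ∉ Set.range p ∧ g i n < N ∧
      x (g i n) ≠ c n}.Finite := fun i N => (Set.finite_lt_nat N).subset fun n hn => hn.1
  obtain ⟨i, ⟨v, hv⟩, m, hm⟩ := cgs_conv (fun a N => a + cgsErr g p c r a (pre x N))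
    (by
      intro i N M hNM
      rw [cgsErr_pre, cgsErr_pre]
      have := Set.ncard_le_ncard (s := {n | n < N ∧ n % 2 = r ∧ n ∉ Set.range p ∧ g i n < N ∧
        x (g i n) ≠ c n}) (t := {n | n < M ∧ n % 2 = r ∧ n ∉ Set.range p ∧ g i n < M ∧
        x (g i n) ≠ c n}) (fun n hn => ⟨lt_of_lt_of_le hn.1 hNM, hn.2.1, hn.2.2.1,
          lt_of_lt_of_le hn.2.2.2.1 hNM, hn.2.2.2.2⟩) (hfin i M)
      omega)
    (fun i N => Nat.le_add_right _ _)
    (by
      obtain ⟨i, m, hm⟩ := hx
      refine ⟨i, i + m, fun N => ?_⟩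
      rw [cgsErr_pre]
      have h := Set.ncard_le_ncard (s := {n | n < N ∧ n % 2 = r ∧ n ∉ Set.range p ∧ g i n < N ∧
        x (g i n) ≠ c n}) (t := ((Finset.range m : Finset ℕ) : Set ℕ)) (fun n hn => by
          rw [Finset.mem_coe, Finset.mem_range]
          by_contra hmn
          exact hn.2.2.2.2 (hm n (by omega) hn.2.1 hn.2.2.1)) (Finset.finite_toSet _)
      rw [Set.ncard_coe_finset, Finset.card_range] at h
      omega)
  refine ⟨i, ?_, m, fun n hn => hm n hn⟩
  -- the copy number `i` has finitely many errors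
  have hF : {n | n % 2 = r ∧ n ∉ Set.range p ∧ x (g i n) ≠ c n}.Finite := by
    by_contra hinf
    obtain ⟨t, ht1, ht2⟩ := Set.Infinite.exists_subset_card_eq hinf (v + 1)
    have hN := hv (t.sup (fun n => n + g i n + 1))
    rw [cgsErr_pre] at hN
    have h := Set.ncard_le_ncard (s := (t : Set ℕ)) (t := {n | n < t.sup (fun n => n + g i n + 1) ∧
      n % 2 = r ∧ n ∉ Set.range p ∧ g i n < t.sup (fun n => n + g i n + 1) ∧ x (g i n) ≠ c n})
      (fun n hn => by
        have h1 := ht1 hn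
        have h2 := Finset.le_sup (f := fun n => n + g i n + 1) (Finset.mem_coe.1 hn)
        exact ⟨by omega, h1.1, h1.2.1, by omega, h1.2.2⟩) (hfin i _)
    rw [Set.ncard_coe_finset, ht2] at h
    omega
  obtain ⟨b, hb⟩ := hF.bddAbove
  refine ⟨b + 1, fun n hn h1 h2 => ?_⟩
  by_contra h3
  have := hb (show n ∈ {n | n % 2 = r ∧ n ∉ Set.range p ∧ x (g i n) ≠ c n} from ⟨h1, h2, h3⟩)
  omega

end Pool.Agent.TDV.H90
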