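import Pool.Agent.TDV.Stmts

/-!
Module LMG of the squad TDV: the main lemma on the adaptive jump.
-/

set_option autoImplicit false

namespace Pool.Agent.TDV.H90

open Pool.Agent.TDV Pool.Agent.Helper25TD

/-- the values of `q` at the even positions below `2 * m` -/
def evens (q : List Bool) (m : ℕ) : List Bool := (List.range m).map fun i => q.getD (2 * i) false

/-- the values of `q` at the positions `4 * i + 3`, `i < n` -/
def odds (q : List Bool) (n : ℕ) : List Bool := (List.range n).map fun i => q.getD (4 * i + 3) false

theorem pre_getD (x : ℕ → Bool) {n i : ℕ} (h : i < n) : (pre x n).getD i false = x i := by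
  unfold pre
  rw [List.getD_eq_getElem?_getD, List.getElem?_map, List.getElem?_range h]
  rfl

theorem evens_pre (b : ℕ → Bool) (m n : ℕ) (h : ∀ i < m, 2 * i < n) :
    evens (pre b n) m = pre (fun i => b (2 * i)) m := by
  unfold evens pre
  refine List.map_congr_left fun i hi => ?_
  exact pre_getD b (h i (List.mem_range.1 hi))

theorem odds_pre (b : ℕ → Bool) (m n : ℕ) (h : ∀ i < m, 4 * i + 3 < n) :
    odds (pre b n) m = pre (fun i => b (4 * i + 3)) m := by
  unfold odds pre
  refine List.map_congr_left fun i hi => ?_
  exact pre_getD b (h i (List.mem_range.1 hi))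

theorem primrec_evens : Primrec₂ evens := by
  unfold evens
  refine Primrec.list_map (Primrec.list_range.comp Primrec.snd) ?_
  refine (Primrec.list_getD false).comp (Primrec.fst.comp Primrec.fst) ?_
  exact Primrec.nat_mul.comp (Primrec.const 2) Primrec.snd

theorem primrec_odds : Primrec₂ odds := by
  unfold odds
  refine Primrec.list_map (Primrec.list_range.comp Primrec.snd) ?_
  refine (Primrec.list_getD false).comp (Primrec.fst.comp Primrec.fst) ?_
  exact Primrec.nat_add.comp (Primrec.nat_mul.comp (Primrec.const 4) Primrec.snd) (Primrec.const 3)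

/-- the process for `jo (K y) (pw a)` -/
def FF (f : (List Bool × List Bool) × List Bool →. ℕ) : List Bool × List Bool →. ℕ := fun q =>
  cond (q.1.length % 2 == 0) (QU (evens q.1 (q.1.length / 2)) q.2)
    (cond (q.1.length / 2 == 0) Part.none
      (f ((odds q.1 (mu (q.1.length / 2)), evens q.1 (mu (q.1.length / 2) + 1)), q.2)))

theorem partrec_FF (hV : VlmStmt) (hU : UniStmt) {f : (List Bool × List Bool) × List Bool →. ℕ}
    (hf : Partrec f) : Partrec (FF f) := by
  obtain ⟨-, -, -, -, -, -, -, hmu, -, -⟩ := hV
  have hlen : Primrec fun q : List Bool × List Bool => q.1.length :=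
    Primrec.list_length.comp Primrec.fst
  have hlen2 : Primrec fun q : List Bool × List Bool => q.1.length / 2 :=
    Primrec.nat_div.comp hlen (Primrec.const 2)
  have hmuq : Primrec fun q : List Bool × List Bool => mu (q.1.length / 2) := hmu.comp hlen2
  unfold FF
  refine Partrec.cond ?_ ?_ (Partrec.cond ?_ Partrec.none ?_)
  · exact (Primrec.beq.comp (Primrec.nat_mod.comp hlen (Primrec.const 2))
      (Primrec.const 0)).to_comp
  · have h1 : Computable fun q : List Bool × List Bool => (evens q.1 (q.1.length / 2), q.2) :=
      (Primrec.pair (primrec_evens.comp Primrec.fst hlen2) Primrec.snd).to_comp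
    exact Partrec.comp hU h1
  · exact (Primrec.beq.comp hlen2 (Primrec.const 0)).to_comp
  · have h1 : Computable fun q : List Bool × List Bool =>
        ((odds q.1 (mu (q.1.length / 2)), evens q.1 (mu (q.1.length / 2) + 1)), q.2) :=
      (Primrec.pair (Primrec.pair (primrec_odds.comp Primrec.fst hmuq)
        (primrec_evens.comp Primrec.fst (Primrec.succ.comp hmuq))) Primrec.snd).to_comp
    exact Partrec.comp hf h1

theorem length_pre (x : ℕ → Bool) (n : ℕ) : (pre x n).length = n := by simp [pre]

theorem lmg (hV : VlmStmt) (hU : UniStmt) (hK : KspStmt) (hC : ColStmt) : LmgStmt := by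
  intro y a f hf ha
  obtain ⟨e, he⟩ := hC (FF f) (partrec_FF hV hU hf)
  obtain ⟨-, hV2, hV3, hV4, -, -, -, -, -, -⟩ := hV
  obtain ⟨-, hK2, -, -, -⟩ := hK
  have hb0 : ∀ m, jo (K y) (pw a) (2 * m) = K y m := by
    intro m
    unfold jo
    rw [if_pos (by omega)]
    congr 1
    omega
  have hb1 : ∀ m, jo (K y) (pw a) (2 * m + 1) = pw a m := by
    intro m
    unfold jo
    rw [if_neg (by omega)]
    congr 1
    omega
  have hpw1 : ∀ n, pw a (2 * n + 1) = a n := by
    intro n
    unfold pw
    rw [if_neg (by omega), hV4]
  have hpw2 : ∀ n, pw a (2 * n) = pw a n := by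
    intro n
    unfold pw
    by_cases h : n = 0
    · subst h
      rfl
    · rw [if_neg (by omega), if_neg h, hV3 n h]
  have hcol := he y (jo (K y) (pw a)) (fun j => ?_)
  · -- the column gives the copies
    refine ⟨e + 2, 3 * 2 ^ e, ?_, fun n => ?_⟩
    · have : 0 < 2 ^ e := by positivity
      rw [pow_add]
      omega
    · have key : ∀ n, K y (2 ^ (e + 2) * n + 3 * 2 ^ e) = pw a n := by
        intro n
        have h1 : 2 ^ (e + 2) * n + 3 * 2 ^ e = 2 ^ e * (2 * (2 * n + 1) + 1) := by
          rw [pow_add]
          ring
        rw [h1, hcol, hb1]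
      rw [key, key, key, hpw1, hpw2]
      exact ⟨rfl, rfl⟩
  · -- the process
    rcases Nat.even_or_odd' j with ⟨m, rfl | rfl⟩
    · rw [hb0, hK2]
      unfold Ask
      refine exists_congr fun N => ?_
      have h1 : evens (pre (jo (K y) (pw a)) (2 * m)) m = pre (K y) m := by
        rw [evens_pre _ _ _ (fun i hi => by omega)]
        congr 1
        funext i
        exact hb0 i
      unfold FF
      simp only [length_pre]
      rw [Nat.mul_mod_right, Nat.mul_div_cancel_left m two_pos]
      simp only [beq_self_eq_true, cond_true]
      rw [h1]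
    · rw [hb1]
      by_cases hm : m = 0
      · subst hm
        constructor
        · intro h
          simp [pw] at h
        · rintro ⟨N, hN⟩
          exfalso
          unfold FF at hN
          simp only [length_pre] at hN
          simp at hN
      · have h0 : pw a m = a (mu m) := by
          unfold pw
          rw [if_neg hm]
        have hm2 := hV2 m hm
        have hpos : 1 ≤ 2 ^ vl m := Nat.one_le_two_pow
        have hle : 2 * mu m + 1 ≤ m := by
          conv_rhs => rw [← hm2]
          exact Nat.le_mul_of_pos_left _ hpos
        rw [h0, ha]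
        refine exists_congr fun N => ?_
        have h1 : evens (pre (jo (K y) (pw a)) (2 * m + 1)) (mu m + 1) =
            pre (K y) (mu m + 1) := by
          rw [evens_pre _ _ _ (fun i hi => by omega)]
          congr 1
          funext i
          exact hb0 i
        have h2 : odds (pre (jo (K y) (pw a)) (2 * m + 1)) (mu m) = pre a (mu m) := by
          rw [odds_pre _ _ _ (fun i hi => by omega)]
          congr 1
          funext i
          have h3 : 4 * i + 3 = 2 * (2 * i + 1) + 1 := by ring
          rw [h3, hb1, hpw1]
        unfold FF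
        simp only [length_pre]
        have h4 : (2 * m + 1) % 2 = 1 := by omega
        have h5 : (2 * m + 1) / 2 = m := by omega
        have h6 : (m == 0) = false := by
          rw [beq_eq_false_iff_ne]
          exact hm
        rw [h4, h5, h6, h1, h2]
        rfl

end Pool.Agent.TDV.H90
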